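import Pool.Agent.Results.MP_71c16a_nt.DiscriminantOfCoverPoints
import Pool.Agent.V11286.NE.Int

/-!
# The discriminant of ALL algebraic points of covers in small windows around almost every direction

`k` is a number field. We consider all varieties `X` over `k` given by equations

  `G_1(P; t) = … = G_q(P; t) = 0, w_1² = F_1(P; t), …, w_m² = F_m(P; t)`, `P ∈ A`, `t = (t_0, …, t_n)`,

where `A = E_1 × … × E_r` is a product of elliptic curves `y² = x³ + a_i x` or `y² = x³ + b_i`, `a_i, b_i ∈ ℤ`, and the `G_e`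
and `F_i` are polynomials with coefficients in `𝓞 k`, multihomogeneous in the coordinates of the plane cubics `E_i`, of even
degrees in the case of the `F_i`, such that for no complex point `P` of `A` all the `G_e(P; ·)` vanish identically and all
the `F_i(P; ·)` are squares of polynomials (as in the starting result `DiscriminantOfCoverPoints`).

Let `K` be a finite extension of `k` of degree `N` over `ℚ`, and let `v_1, v_2, …` tend to infinity faster than every power
(for instance `v_l = 2 ^ l`). For almost all real vectors `α` with `(n + 1) N` coordinates the following holds for all these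
`X`, with constants `c, ϑ > 0` which depend on `X` and `K` only. For all large `l` and ALL vectors `t ∈ (𝓞 K)^(n+1)` whose
coordinates with respect to an integral basis are at most `v_l ^ ϑ` away from those of `v_l α`, all the algebraic points
`x = (P, t, w)` of `X` over `(P, t)`, `P ∈ A(K)`, of arbitrarily large height, satisfy `d_K(x) > c log v_l`, where
`d_K(x)` is the logarithmic discriminant (this is proved for all number fields `L` containing the coordinates of `x`).
-/

set_option autoImplicit false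

namespace Pool.Agent.Results.MP_71c16a_nt.DiscriminantInWindows

open MvPolynomial NumberField Pool.Agent.W659.SA Pool.Agent.W659.PV MeasureTheory Filter Topology

/-- the real numbers `v_l ≥ 1` tend to infinity so fast that `∑ v_l ^ (-s) < ∞` for all `s > 0`, for instance
`v_l = 2 ^ l` -/
def Fast (v : ℕ → ℝ) : Prop := (∀ n, 1 ≤ v n) ∧ ∀ s : ℝ, 0 < s → Summable fun n : ℕ => (v n) ^ (-s)

lemma fast_two : Fast (fun n => (2 : ℝ) ^ n) := by
  refine ⟨fun n => one_le_pow₀ (by norm_num), fun s hs => ?_⟩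
  have h : (fun n : ℕ => ((2 : ℝ) ^ n) ^ (-s)) = fun n => ((2 : ℝ) ^ (-s)) ^ n := by
    funext n
    rw [← Real.rpow_natCast, ← Real.rpow_mul (by norm_num), ← Real.rpow_natCast, ← Real.rpow_mul (by norm_num)]
    congr 1
    ring
  rw [h]
  exact summable_geometric_of_lt_one (by positivity) (Real.rpow_lt_one_of_one_lt_of_neg (by norm_num) (by linarith))

/-- the coefficients of the equations of `X` -/
structure Eqs (k : Type) [Field k] (n : ℕ) where
  /-- the number of the elliptic curves -/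
  r : ℕ
  /-- the number of the equations `G_e = 0` -/
  q : ℕ
  /-- the number of the equations `w_i² = F_i` -/
  m : ℕ
  /-- the curves `y² = x³ + a x + b` -/
  a : Fin r → ℤ
  /-- the curves `y² = x³ + a x + b` -/
  b : Fin r → ℤ
  /-- the equations `G_e = 0` -/
  G : Fin q → Pol0 (𝓞 k) r (n + 1)
  /-- the equations `w_i² = F_i` -/
  F : Fin m → Pol0 (𝓞 k) r (n + 1)

/-- the conditions on the equations: `a_i = 0 ≠ b_i` or `a_i ≠ 0 = b_i`, the polynomials are multihomogeneous in the
coordinates of the curves, the degrees of the `F_i` are even, and there is no complex point `P` of `A` such that all the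
`G_e(P; ·)` vanish identically and all the `F_i(P; ·)` are squares of polynomials -/
def Eqs.Good {k : Type} [Field k] {n : ℕ} (σ : k →+* ℂ) (X : Eqs k n) : Prop :=
  (∀ i, X.a i * X.b i = 0 ∧ (X.a i ≠ 0 ∨ X.b i ≠ 0)) ∧
  (∃ d' : Fin X.q → Fin X.r → ℕ, ∀ e, MHomog (X.G e) (d' e)) ∧
  (∃ d : Fin X.m → Fin X.r → ℕ, (∀ i j, Even (d i j)) ∧ ∀ i, MHomog (X.F i) (d i)) ∧
  ∀ V : Fin X.r → Fin 3 → ℂ, (∀ i, Pool.Agent.W659.FD.OnE (X.a i) (X.b i) (V i)) →
    (∃ e, spc0 (toC σ) (X.G e) V ≠ 0) ∨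
      ∃ i, ∀ g : MvPolynomial (Fin (n + 1)) ℂ, spc0 (toC σ) (X.F i) V ≠ g ^ 2

/-- all points of the cover `X` over the points `(P; t)`, `P ∈ A(K)`, have logarithmic discriminant greater than `β`
relative to `K`: this holds for each number field `L` which contains the coordinates `w_i` -/
def LargeDisc {k : Type} [Field k] {n : ℕ} (X : Eqs k n) {K : Type} [Field K] [NumberField K] [Algebra k K] {N : ℕ}
    (ω : Module.Basis (Fin N) ℤ (𝓞 K)) (t : Fin (n + 1) × Fin N → ℤ) (β : ℝ) : Prop :=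
  ∀ V : Fin X.r → Fin 3 → K, (∀ i, Pool.Agent.W659.FD.OnE (X.a i) (X.b i) (V i)) →
    (∀ e, vl0 (toL k K) (X.G e) V (fun i => ((vec ω t i : 𝓞 K) : K)) = 0) →
      ∀ (L : Type) (_ : Field L) (_ : NumberField L) (_ : Algebra K L) (w : Fin X.m → L),
        (∀ i, w i ^ 2 = algebraMap K L (vl0 (toL k K) (X.F i) V (fun i => ((vec ω t i : 𝓞 K) : K)))) →
          β < logDisc K L

theorem countable_ring (k : Type) [Field k] [NumberField k] : Countable (𝓞 k) :=
  (RingOfIntegers.basis k).equivFun.toEquiv.injective.countable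

theorem countable_pol {σ R : Type} [CommRing R] [Countable σ] [Countable R] : Countable (MvPolynomial σ R) := by
  rw [← Cardinal.mk_le_aleph0_iff]
  refine (MvPolynomial.cardinalMk_le_max).trans ?_
  simp only [max_le_iff, Cardinal.mk_le_aleph0_iff, le_refl, and_true]
  exact ⟨inferInstance, inferInstance⟩

theorem countable_eqs (k : Type) [Field k] [NumberField k] (n : ℕ) : Countable (Eqs k n) := by
  have h1 : Countable (𝓞 k) := countable_ring k
  have h2 : ∀ r : ℕ, Countable (Pol0 (𝓞 k) r (n + 1)) := fun r => countable_pol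
  let f : Eqs k n → Σ r : ℕ, Σ q : ℕ, Σ m : ℕ, (Fin r → ℤ) × (Fin r → ℤ) × (Fin q → Pol0 (𝓞 k) r (n + 1)) ×
    (Fin m → Pol0 (𝓞 k) r (n + 1)) := fun X => ⟨X.r, X.q, X.m, X.a, X.b, X.G, X.F⟩
  have hf : Function.Injective f := by
    rintro ⟨r, q, m, a, b, G, F⟩ ⟨r', q', m', a', b', G', F'⟩ h
    simp only [f, Sigma.mk.injEq] at h
    obtain ⟨rfl, h⟩ := h
    rw [heq_eq_eq, Sigma.mk.injEq] at h
    obtain ⟨rfl, h⟩ := h
    rw [heq_eq_eq, Sigma.mk.injEq] at h
    obtain ⟨rfl, h⟩ := h
    simp only [heq_eq_eq, Prod.mk.injEq] at h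
    obtain ⟨rfl, rfl, rfl, rfl⟩ := h
    rfl
  exact hf.countable

/-- **Main result.** -/
theorem result (k : Type) [Field k] [NumberField k] (σ : k →+* ℂ) (K : Type) [Field K] [NumberField K] [Algebra k K]
    (n N : ℕ) (ω : Module.Basis (Fin N) ℤ (𝓞 K)) :
    Fast (fun n => (2 : ℝ) ^ n) ∧
    ∃ c ϑ : Eqs k n → ℝ, (∀ X, 0 < c X ∧ 0 < ϑ X) ∧ ∀ v : ℕ → ℝ, Fast v →
      ∀ᵐ α : Fin (n + 1) × Fin N → ℝ, ∀ X : Eqs k n, X.Good σ → ∃ l₀ : ℕ, ∀ l : ℕ, l₀ ≤ l →
        ∀ t : Fin (n + 1) × Fin N → ℤ, (∀ p, |(t p : ℝ) - α p * v l| ≤ (v l) ^ ϑ X) →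
          LargeDisc X ω t (c X * Real.log (v l)) := by
  classical
  have hN : 0 < N := by
    have h1 := Module.finrank_eq_card_basis ω
    rw [RingOfIntegers.rank, Fintype.card_fin] at h1
    rw [← h1]
    exact Module.finrank_pos
  set k' : ℝ := ((Fintype.card (Fin (n + 1) × Fin N) : ℕ) : ℝ) with hkdef
  have hkeq : k' = (((n + 1) * N : ℕ) : ℝ) := by
    rw [hkdef, Fintype.card_prod, Fintype.card_fin, Fintype.card_fin]
  have hk : 0 < k' := by
    rw [hkeq]
    exact Nat.cast_pos.2 (Nat.mul_pos (Nat.succ_pos n) hN)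
  have key : ∀ X : Eqs k n, ∃ c η C : ℝ, 0 < c ∧ 0 < η ∧ (X.Good σ → ∀ H : ℕ, 1 ≤ H →
      (((FibD k ω X.a X.b X.G X.F (c * Real.log H) H).ncard : ℕ) : ℝ) ≤
        C * (H : ℝ) ^ ((((n + 1) * N : ℕ) : ℝ) - η)) := by
    intro X
    by_cases hX : X.Good σ
    · obtain ⟨h1, ⟨d', h2⟩, ⟨d, h3, h4⟩, h5⟩ := hX
      obtain ⟨c, hc, η, hη, C, h⟩ := DiscriminantOfCoverPoints.result k X.r n X.q X.m X.a X.b h1 X.G d' h2 X.F d h3 h4 σ
        h5 K N ω
      exact ⟨c, η, C, hc, hη, fun _ => h⟩
    · exact ⟨1, 1, 1, one_pos, one_pos, fun h => absurd h hX⟩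
  choose c η C hc hη hC using key
  refine ⟨fast_two, fun X => c X / 2, fun X => min (η X) k' / (2 * k'), fun X => ⟨half_pos (hc X),
    div_pos (lt_min (hη X) hk) (by linarith)⟩, ?_⟩
  intro v hv
  have : Countable (Eqs k n) := countable_eqs k n
  -- the norm of an integral vector
  set nm : (Fin (n + 1) × Fin N → ℤ) → ℕ := fun t => Finset.univ.sup fun p => (t p).natAbs with hnm
  have hnm1 : ∀ t p, (t p).natAbs ≤ nm t := fun t p => Finset.le_sup (f := fun p => (t p).natAbs) (Finset.mem_univ p)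
  have hnm2 : ∀ (t) (T : ℕ), (∀ p, |t p| ≤ (T : ℤ)) → nm t ≤ T := fun t T h => Finset.sup_le fun p _ => by
    have := h p
    rw [Int.abs_eq_natAbs] at this
    exact_mod_cast this
  have main : ∀ᵐ α : Fin (n + 1) × Fin N → ℝ, ∀ X : Eqs k n, X.Good σ → ∃ l₀ : ℕ, ∀ l : ℕ, l₀ ≤ l →
        ∀ t : Fin (n + 1) × Fin N → ℤ, (∀ p, |(t p : ℝ) - α p * v l| ≤ (v l) ^ (min (η X) k' / (2 * k'))) →
          t ∉ {t | ¬ LargeDisc X ω t (c X * Real.log (nm t))} := by
    rw [ae_all_iff]
    intro X
    by_cases hX : X.Good σ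
    · have hck : min (η X) k' ≤ k' := min_le_right _ _
      have h1 := Pool.Agent.V11286.NE.ae_int (ι := Fin (n + 1) × Fin N)
        {t | ¬ LargeDisc X ω t (c X * Real.log (nm t))} (c := min (η X) k') (C := |C X|) ?_ hck hv.1 hv.2
        (θ := min (η X) k' / (2 * k')) ?_ ?_
      · filter_upwards [h1] with α hα _ using hα
      · intro T hT
        have hT1 : (1 : ℝ) ≤ T := by exact_mod_cast hT
        have hfin : (FibD k ω X.a X.b X.G X.F (c X * Real.log T) T).Finite := by
          refine (Set.finite_Icc (fun _ : Fin (n + 1) × Fin N => -(T : ℤ)) (fun _ => (T : ℤ))).subset ?_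
          rintro t ⟨ht, -⟩
          exact ⟨fun i => (abs_le.1 (ht i)).1, fun i => (abs_le.1 (ht i)).2⟩
        have hsub : {t : Fin (n + 1) × Fin N → ℤ | (∀ i, |t i| ≤ (T : ℤ)) ∧
            t ∈ {t | ¬ LargeDisc X ω t (c X * Real.log (nm t))}} ⊆ FibD k ω X.a X.b X.G X.F (c X * Real.log T) T := by
          rintro t ⟨ht1, ht2⟩
          refine ⟨ht1, ?_⟩
          simp only [Set.mem_ofPred_eq, LargeDisc, not_forall, not_lt, exists_prop] at ht2
          obtain ⟨V, hV, hG, L, i1, i2, i3, w, hw, hle⟩ := ht2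
          refine ⟨V, hV, hG, L, i1, i2, i3, w, hw, hle.trans ?_⟩
          refine mul_le_mul_of_nonneg_left ?_ (hc X).le
          rcases Nat.eq_zero_or_pos (nm t) with h0 | h0
          · rw [h0, Nat.cast_zero, Real.log_zero]
            exact Real.log_nonneg hT1
          · exact Real.log_le_log (Nat.cast_pos.2 h0) (Nat.cast_le.2 (hnm2 t T ht1))
        have h2 := hC X hX T hT
        rw [← hkdef]
        calc _ ≤ ((FibD k ω X.a X.b X.G X.F (c X * Real.log T) T).ncard : ℝ) := by
              exact_mod_cast Set.ncard_le_ncard hsub hfin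
          _ ≤ C X * (T : ℝ) ^ (k' - η X) := by rw [hkeq]; exact h2
          _ ≤ |C X| * (T : ℝ) ^ (k' - η X) :=
              mul_le_mul_of_nonneg_right (le_abs_self _) (Real.rpow_nonneg (by linarith) _)
          _ ≤ _ := mul_le_mul_of_nonneg_left (Real.rpow_le_rpow_of_exponent_le hT1
              (by linarith [min_le_left (η X) k'])) (abs_nonneg _)
      · rw [div_le_one (by linarith)]
        linarith
      · rw [← hkdef]
        have h0 : k' * (min (η X) k' / (2 * k')) = min (η X) k' / 2 := by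
          field_simp
        rw [h0]
        have := lt_min (hη X) hk
        linarith
    · exact Eventually.of_forall fun α h => absurd h hX
  -- one coordinate is not zero
  set p₀ : Fin (n + 1) × Fin N := (0, ⟨0, hN⟩) with hp₀
  have hne : ∀ᵐ α : Fin (n + 1) × Fin N → ℝ, α p₀ ≠ 0 := Measure.ae_eval_ne (fun _ => volume) p₀ 0
  have hvt : Tendsto v atTop atTop := by
    have h1 := (hv.2 1 one_pos).tendsto_atTop_zero
    have h2 : Tendsto (fun l => (v l)⁻¹) atTop (𝓝[>] 0) := by
      rw [tendsto_nhdsWithin_iff]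
      refine ⟨?_, Eventually.of_forall fun l => inv_pos.2 (lt_of_lt_of_le one_pos (hv.1 l))⟩
      refine h1.congr fun l => ?_
      rw [Real.rpow_neg_one]
    have h3 := h2.inv_tendsto_nhdsGT_zero
    refine h3.congr fun l => ?_
    simp
  filter_upwards [main, hne] with α hα hα0 X hX
  obtain ⟨l₀, hl₀⟩ := hα X hX
  have hα1 : 0 < |α p₀| := abs_pos.2 hα0
  obtain ⟨l₁, hl₁⟩ := eventually_atTop.1 (hvt.eventually_ge_atTop ((2 / |α p₀|) ^ 2))
  refine ⟨max l₀ l₁, fun l hl t ht => ?_⟩
  have h1 := hl₀ l ((le_max_left _ _).trans hl) t ht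
  simp only [Set.mem_ofPred_eq, not_not] at h1
  have hv1 := hv.1 l
  have hv0 : 0 < v l := lt_of_lt_of_le one_pos hv1
  -- the norm of `t` is large
  have h2 : Real.sqrt (v l) ≤ nm t := by
    have h3 : (2 / |α p₀|) ≤ Real.sqrt (v l) := Real.le_sqrt_of_sq_le (hl₁ l ((le_max_right _ _).trans hl))
    have h4 : 2 * Real.sqrt (v l) ≤ |α p₀| * v l := by
      have h5 : 2 ≤ |α p₀| * Real.sqrt (v l) := by
        rw [div_le_iff₀ hα1] at h3
        linarith
      calc 2 * Real.sqrt (v l) ≤ |α p₀| * Real.sqrt (v l) * Real.sqrt (v l) :=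
            mul_le_mul_of_nonneg_right h5 (Real.sqrt_nonneg _)
        _ = |α p₀| * v l := by rw [mul_assoc, Real.mul_self_sqrt hv0.le]
    have h6 : (v l) ^ (min (η X) k' / (2 * k')) ≤ Real.sqrt (v l) := by
      rw [Real.sqrt_eq_rpow]
      refine Real.rpow_le_rpow_of_exponent_le hv1 ?_
      rw [div_le_iff₀ (by linarith)]
      have := min_le_right (η X) k'
      linarith
    have h7 := ht p₀
    have h8 : |α p₀| * v l ≤ |(t p₀ : ℝ)| + (v l) ^ (min (η X) k' / (2 * k')) := by
      have h9 : |α p₀ * v l| ≤ |(t p₀ : ℝ)| + |(t p₀ : ℝ) - α p₀ * v l| := by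
        calc |α p₀ * v l| = |(t p₀ : ℝ) - ((t p₀ : ℝ) - α p₀ * v l)| := by ring_nf
          _ ≤ _ := abs_sub _ _
      rw [abs_mul, abs_of_pos hv0] at h9
      linarith
    have h10 : |(t p₀ : ℝ)| ≤ nm t := by
      have h11 := hnm1 t p₀
      have h12 : ((t p₀).natAbs : ℝ) ≤ nm t := Nat.cast_le.2 h11
      rwa [Nat.cast_natAbs, Int.cast_abs] at h12
    linarith
  have h3 : c X / 2 * Real.log (v l) ≤ c X * Real.log (nm t) := by
    have h4 : Real.log (Real.sqrt (v l)) ≤ Real.log (nm t) :=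
      Real.log_le_log (Real.sqrt_pos.2 hv0) h2
    rw [Real.log_sqrt hv0.le] at h4
    have := hc X
    nlinarith
  intro V hV hG L i1 i2 i3 w hw
  exact lt_of_le_of_lt h3 (h1 V hV hG L i1 i2 i3 w hw)

end Pool.Agent.Results.MP_71c16a_nt.DiscriminantInWindows
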