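import Mathlib
import Pool.Agent.Results.MP_71c16a_nt.PointsOfBoundedDegree
import Pool.Agent.H107.NFCount
import Pool.Agent.V11001.KM.Family

/-!
# Vojta's inequality for the points of degree `r` with heights near the powers of almost every real number

Let `k` be a number field of degree `d` and `lam n` real numbers with `lam n / log n → ∞`, for example `lam n = n`. For
almost every real `x > 1`, all `r ≥ 1`, every finite set `S` of places, every divisor `D` of distinct `k`-rational points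
of the line, all `0 < κ ≤ r + 1` and `θ < 1 - expo`, where `expo = d r (r + 1 - κ m)` is the exponent in the count of the
points of degree `r` with proximity at least `κ h(y)`, the proximity to `D` of ALL points `y` of degree `r` over `k` with
`|H(y) - x ^ (lam n)| ≤ x ^ (θ lam n)` for some `n` is at most `κ h(y) + C`.
-/

set_option autoImplicit false

namespace Pool.Agent.Results.MP_71c16a_nt.HeightsNearPowers

open NumberField IsDedekindDomain Height IntermediateField Filter
open Pool.Agent.Results.MP_71c16a_nt.PointsOfBoundedDegree (prox ht Near)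

variable {k : Type} [Field k] [NumberField k]

/-- `D` is a finite set of distinct points `(a₁ : a₂)` of the projective line -/
def Distinct (D : Finset (𝓞 k × 𝓞 k)) : Prop :=
  (∀ a ∈ D, a ≠ (0, 0)) ∧ ∀ a ∈ D, ∀ b ∈ D, a ≠ b → a.1 * b.2 ≠ a.2 * b.1

/-- the points of degree `r` outside the support of `D` -/
def Points (r : ℕ) (D : Finset (𝓞 k × 𝓞 k)) : Set (AlgebraicClosure k) :=
  {x | Module.finrank k k⟮x⟯ = r ∧ ∀ a ∈ D, algebraMap k (AlgebraicClosure k) (a.1 : k) ≠
      algebraMap k (AlgebraicClosure k) (a.2 : k) * x}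

/-- the exponent: `d r (r + 1 - κ min (1, (r + 1) / min (q, r s)))`, `d` the degree of `k`, `q` the number of points of
`D`, `s` the number of places in `S` together with the archimedean places -/
noncomputable def expo (k : Type) [Field k] [NumberField k] (r : ℕ) (S : Finset (HeightOneSpectrum (𝓞 k)))
    (D : Finset (𝓞 k × 𝓞 k)) (κ : ℝ) : ℝ :=
  Module.finrank ℚ k * r * ((r + 1 : ℝ) - κ * min 1 ((r + 1 : ℝ) /
    ((min D.card (r * (S.card + Fintype.card (InfinitePlace k))) : ℕ) : ℝ)))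

/-- the height `H(y) = exp h(y)` is in the window of length `2 x ^ (θ lam n)` around `β x ^ (lam n)` for some `n` -/
def InWindow (lam : ℕ → ℝ) (θ β x : ℝ) (y : AlgebraicClosure k) : Prop :=
  ∃ n : ℕ, |Real.exp (ht y) - β * x ^ lam n| ≤ x ^ (θ * lam n)

lemma ht_nonneg (x : AlgebraicClosure k) : 0 ≤ ht x := by
  unfold Pool.Agent.Results.MP_71c16a_nt.PointsOfBoundedDegree.ht
  exact div_nonneg (Height.zero_le_logHeight₁ _) (Nat.cast_nonneg _)

lemma expo_nonneg (r : ℕ) (S : Finset (HeightOneSpectrum (𝓞 k))) (D : Finset (𝓞 k × 𝓞 k)) {κ : ℝ}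
    (hκ : 0 ≤ κ) (hκ1 : κ ≤ r + 1) : 0 ≤ expo k r S D κ := by
  unfold expo
  have h1 : κ * min 1 ((r + 1 : ℝ) /
    ((min D.card (r * (S.card + Fintype.card (InfinitePlace k))) : ℕ) : ℝ)) ≤ κ * 1 :=
    mul_le_mul_of_nonneg_left (min_le_left _ _) hκ
  apply mul_nonneg (by positivity)
  linarith

/-- the members of a family -/
def Fam (r : ℕ) (S : Finset (HeightOneSpectrum (𝓞 k))) (D : Finset (𝓞 k × 𝓞 k)) (κ c : ℝ) :
    Set (AlgebraicClosure k) :=
  {x | x ∈ Points r D ∧ κ * ht x - c ≤ prox S D (AdjoinSimple.gen k x)}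

lemma count (r : ℕ) (hr : 1 ≤ r) (S : Finset (HeightOneSpectrum (𝓞 k))) (D : Finset (𝓞 k × 𝓞 k))
    (hD : Distinct D) (κ : ℝ) (hκ : 0 ≤ κ) (hκ1 : κ ≤ r + 1) (c ε : ℝ) (hε : 0 < ε) :
    ∃ C : ℝ, ∀ X : ℝ, 1 ≤ X → {x | x ∈ Fam r S D κ c ∧ Real.exp (ht x) ≤ X}.Finite ∧
      ({x | x ∈ Fam r S D κ c ∧ Real.exp (ht x) ≤ X}.ncard : ℝ) ≤ C * X ^ (expo k r S D κ + ε) := by
  obtain ⟨C, -, hC⟩ := Pool.Agent.Results.MP_71c16a_nt.PointsOfBoundedDegree.result r hr S D hD.1 hD.2
    κ hκ hκ1 c ε hε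
  refine ⟨C, fun X hX => ?_⟩
  have hX0 : 0 < X := by linarith
  have hset : {x | x ∈ Fam r S D κ c ∧ Real.exp (ht x) ≤ X} = Near r S D κ c (Real.log X) := by
    ext x
    constructor
    · rintro ⟨⟨⟨h1, h2⟩, h3⟩, h4⟩
      exact ⟨h1, (Real.le_log_iff_exp_le hX0).2 h4, h2, h3⟩
    · rintro ⟨h1, h4, h2, h3⟩
      exact ⟨⟨⟨h1, h2⟩, h3⟩, (Real.le_log_iff_exp_le hX0).1 h4⟩
  rw [hset]
  obtain ⟨g1, g2⟩ := hC (Real.log X) (Real.log_nonneg hX)
  refine ⟨g1, g2.trans (le_of_eq ?_)⟩
  rw [Real.rpow_def_of_pos hX0, mul_comm (Real.log X)]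
  rfl

/-- **Theorem.** Let `k` be a number field of degree `d`, `lam n / log n → ∞` and let `B` be a countable set of real
numbers.
(1) Let `r ≥ 1`, `S` a finite set of primes of `k`, `D` a finite set of distinct points of the projective line over `k`,
`0 ≤ κ ≤ r + 1` and `θ < 1`. There is a set `E` of real numbers of Hausdorff dimension at most `expo / (1 - θ)` such that
for each `x > 1` outside `E`, each positive `β` in `B` and each `c` there are only finitely many `y` of degree `r` over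
`k`, outside `D`, with a height in the window of length `2 x ^ (θ lam n)` around `β x ^ (lam n)` for some `n` and with
`∑_{v ∈ S ∪ S_∞} λ_D(y, v) ≥ κ h(y) - c`.
(2) For almost every real `x > 1`: for all `r ≥ 1`, all `S`, all `D`, all `0 < κ ≤ r + 1`, all `θ` with
`expo + θ < 1` and all positive `β` in `B` there is `C` such that ALL `y` of degree `r` over `k`, outside `D`, with a
height in the window of length `2 x ^ (θ lam n)` around `β x ^ (lam n)` for some `n` satisfy
`∑_{v ∈ S ∪ S_∞} λ_D(y, v) ≤ κ h(y) + C`. -/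
theorem result : ∀ (k : Type) [Field k] [NumberField k] (lam : ℕ → ℝ),
    Tendsto (fun n : ℕ => lam n / Real.log n) atTop atTop → ∀ B : Set ℝ, B.Countable →
    (∀ r : ℕ, 1 ≤ r → ∀ (S : Finset (HeightOneSpectrum (𝓞 k))) (D : Finset (𝓞 k × 𝓞 k)), Distinct D →
      ∀ κ : ℝ, 0 ≤ κ → κ ≤ r + 1 → ∀ θ : ℝ, θ < 1 →
      ∃ E : Set ℝ, dimH E ≤ ENNReal.ofReal (expo k r S D κ / (1 - θ)) ∧
        ∀ x : ℝ, 1 < x → x ∉ E → ∀ β ∈ B, 0 < β → ∀ c : ℝ,
          {y | y ∈ Points r D ∧ InWindow lam θ β x y ∧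
            κ * ht y - c ≤ prox S D (AdjoinSimple.gen k y)}.Finite) ∧
    (∀ᵐ x : ℝ, 1 < x → ∀ r : ℕ, 1 ≤ r →
      ∀ (S : Finset (HeightOneSpectrum (𝓞 k))) (D : Finset (𝓞 k × 𝓞 k)), Distinct D →
      ∀ κ θ : ℝ, 0 < κ → κ ≤ r + 1 → expo k r S D κ + θ < 1 → ∀ β ∈ B, 0 < β →
      ∃ C : ℝ, ∀ y ∈ Points r D, InWindow lam θ β x y →
        prox S D (AdjoinSimple.gen k y) ≤ κ * ht y + C) := by
  intro k _ _ lam hlam B hB
  refine ⟨fun r hr S D hD κ hκ hκ1 θ hθ => ?_, ?_⟩
  · obtain ⟨E, h1, h2⟩ := Pool.Agent.V11001.KM.family (fun x : AlgebraicClosure k => Real.exp (ht x)) hlam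
      (expo_nonneg r S D hκ hκ1) hθ B hB (J := ℕ)
      (fun j => Fam r S D κ j) (fun j ε hε => count r hr S D hD κ hκ hκ1 j ε hε)
    refine ⟨E, h1, fun x hx hxE β hβ hβ0 c => ?_⟩
    obtain ⟨j, hj⟩ := exists_nat_ge c
    refine (h2 x hx hxE β hβ hβ0 j).subset ?_
    rintro y ⟨g1, g2, g3⟩
    exact ⟨⟨g1, by linarith⟩, g2⟩
  · have := Pool.Agent.H107.NF.countable_hos k
    have := Pool.Agent.H107.NF.countable_nf k
    have : Countable (𝓞 k) := Subtype.countable
    have hall : ∀ (r : ℕ) (S : Finset (HeightOneSpectrum (𝓞 k))) (D : Finset (𝓞 k × 𝓞 k)) (q : ℚ),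
        ∀ᵐ x : ℝ, 1 ≤ r → Distinct D → 0 < (q : ℝ) → (q : ℝ) ≤ r + 1 → 1 < x → ∀ θ : ℝ,
          θ < 1 - expo k r S D q → ∀ β ∈ B, 0 < β → ∀ j : ℕ,
          {y | y ∈ Fam r S D q j ∧ ∃ n : ℕ, |Real.exp (ht y) - β * x ^ lam n| ≤ x ^ (θ * lam n)}.Finite := by
      intro r S D q
      by_cases hr : 1 ≤ r
      · by_cases hD : Distinct D
        · by_cases hq : 0 < (q : ℝ)
          · by_cases hq1 : (q : ℝ) ≤ r + 1
            · filter_upwards [Pool.Agent.V11001.KM.ae_family (fun x : AlgebraicClosure k => Real.exp (ht x)) hlam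
                (expo_nonneg r S D hq.le hq1) B hB (J := ℕ) (fun j => Fam r S D q j)
                (fun j ε hε => count r hr S D hD q hq.le hq1 j ε hε)] with z hz _ _ _ _
              exact hz
            · exact Filter.Eventually.of_forall fun z _ _ _ h => absurd h hq1
          · exact Filter.Eventually.of_forall fun z _ _ h => absurd h hq
        · exact Filter.Eventually.of_forall fun z _ h => absurd h hD
      · exact Filter.Eventually.of_forall fun z h => absurd h hr
    simp only [← MeasureTheory.ae_all_iff] at hall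
    filter_upwards [hall] with x hx hx1 r hr S D hD κ θ hκ hκ1 hθ β hβ hβ0
    -- a rational number slightly smaller than `κ`
    obtain ⟨q, hq0, hqκ, hq2⟩ : ∃ q : ℚ, 0 < (q : ℝ) ∧ (q : ℝ) < κ ∧ expo k r S D q + θ < 1 := by
      have hcont : Continuous (fun t : ℝ => expo k r S D t + θ) := by
        unfold expo
        fun_prop
      have hev : ∀ᶠ t in nhds κ, expo k r S D t + θ < 1 :=
        hcont.continuousAt.eventually_lt continuousAt_const hθ
      obtain ⟨η, hη, hball⟩ := Metric.eventually_nhds_iff.1 hev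
      obtain ⟨q, h1, h2⟩ := exists_rat_btwn (show max 0 (κ - η) < κ from max_lt hκ (by linarith))
      refine ⟨q, (le_max_left _ _).trans_lt h1, h2, hball ?_⟩
      rw [Real.dist_eq, abs_lt]
      have := (le_max_right 0 (κ - η)).trans_lt h1
      constructor <;> linarith
    have hfin := hx r S D q hr hD hq0 (by linarith) hx1 θ (by linarith) β hβ hβ0 0
    obtain ⟨C, hC⟩ := Pool.Agent.V11001.KM.const_of_finite
      {y | y ∈ Points r D ∧ InWindow lam θ β x y}
      (fun x => prox S D (AdjoinSimple.gen k x) - q * ht x) (hfin.subset (by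
        rintro x ⟨⟨h1, h2⟩, h4⟩
        have h5 : 0 < prox S D (AdjoinSimple.gen k x) - q * ht x := h4
        refine ⟨⟨h1, ?_⟩, h2⟩
        push_cast
        linarith))
    refine ⟨C, fun y h1 h2 => ?_⟩
    have h6 : prox S D (AdjoinSimple.gen k y) - q * ht y ≤ C := hC y ⟨h1, h2⟩
    have h7 : q * ht y ≤ κ * ht y := mul_le_mul_of_nonneg_right hqκ.le (ht_nonneg y)
    linarith

end Pool.Agent.Results.MP_71c16a_nt.HeightsNearPowers
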