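import Mathlib
import Pool.Agent.Results.MP_71c16a_nt.PointsOfBoundedDegree
import Pool.Agent.H107.MetricFam
import Pool.Agent.H107.NFCount

/-!
# Vojta's inequality for the approximations of degree `r` to almost every real number

Let `k` be a number field of degree `d` and `ι` an embedding of its algebraic closure in `ℂ`. For almost every real `z`,
all `r ≥ 1`, every finite set `S` of places, every divisor `D` of distinct `k`-rational points of the line and every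
`κ > 0` the proximity to `D` of ALL points `x` of degree `r` over `k` with `|ι x - z| ≤ H(x) ^ (- d r (r + 1))` is at
most `κ h(x) + C`.
-/

set_option autoImplicit false

namespace Pool.Agent.Results.MP_71c16a_nt.NearAlmostEveryPoint

open NumberField IsDedekindDomain Height IntermediateField
open Pool.Agent.Results.MP_71c16a_nt.PointsOfBoundedDegree (prox ht Near)

variable {k : Type} [Field k] [NumberField k]

/-- `D` is a finite set of distinct points `(a₁ : a₂)` of the projective line -/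
def Distinct (D : Finset (𝓞 k × 𝓞 k)) : Prop :=
  (∀ a ∈ D, a ≠ (0, 0)) ∧ ∀ a ∈ D, ∀ b ∈ D, a ≠ b → a.1 * b.2 ≠ a.2 * b.1

/-- the points of degree `r` outside the support of `D` -/
def Points (r : ℕ) (D : Finset (𝓞 k × 𝓞 k)) : Set (AlgebraicClosure k) :=
  {x | Module.finrank k k⟮x⟯ = r ∧ ∀ a ∈ D, algebraMap k (AlgebraicClosure k) (a.1 : k) ≠
      algebraMap k (AlgebraicClosure k) (a.2 : k) * x}

/-- the exponent: `d r (r + 1 - κ min (1, (r + 1) / min (q, r s)))`, `d` the degree of `k`, `q` the number of points of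
`D`, `s` the number of places in `S` together with the archimedean places -/
noncomputable def expo (k : Type) [Field k] [NumberField k] (r : ℕ) (S : Finset (HeightOneSpectrum (𝓞 k)))
    (D : Finset (𝓞 k × 𝓞 k)) (κ : ℝ) : ℝ :=
  Module.finrank ℚ k * r * ((r + 1 : ℝ) - κ * min 1 ((r + 1 : ℝ) /
    ((min D.card (r * (S.card + Fintype.card (InfinitePlace k))) : ℕ) : ℝ)))

lemma ht_nonneg (x : AlgebraicClosure k) : 0 ≤ ht x := by
  unfold Pool.Agent.Results.MP_71c16a_nt.PointsOfBoundedDegree.ht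
  exact div_nonneg (Height.zero_le_logHeight₁ _) (Nat.cast_nonneg _)

lemma expo_nonneg (r : ℕ) (S : Finset (HeightOneSpectrum (𝓞 k))) (D : Finset (𝓞 k × 𝓞 k)) {κ : ℝ}
    (hκ : 0 ≤ κ) (hκ1 : κ ≤ r + 1) : 0 ≤ expo k r S D κ := by
  unfold expo
  have h1 : κ * min 1 ((r + 1 : ℝ) /
    ((min D.card (r * (S.card + Fintype.card (InfinitePlace k))) : ℕ) : ℝ)) ≤ κ * 1 :=
    mul_le_mul_of_nonneg_left (min_le_left _ _) hκ
  apply mul_nonneg (by positivity)
  linarith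

/-- the members of a family -/
def Fam (r : ℕ) (S : Finset (HeightOneSpectrum (𝓞 k))) (D : Finset (𝓞 k × 𝓞 k)) (κ c : ℝ) :
    Set (AlgebraicClosure k) :=
  {x | x ∈ Points r D ∧ κ * ht x - c ≤ prox S D (AdjoinSimple.gen k x)}

lemma count (r : ℕ) (hr : 1 ≤ r) (S : Finset (HeightOneSpectrum (𝓞 k))) (D : Finset (𝓞 k × 𝓞 k))
    (hD : Distinct D) (κ : ℝ) (hκ : 0 ≤ κ) (hκ1 : κ ≤ r + 1) (c ε : ℝ) (hε : 0 < ε) :
    ∃ C : ℝ, ∀ X : ℝ, 1 ≤ X → {x | x ∈ Fam r S D κ c ∧ Real.exp (ht x) ≤ X}.Finite ∧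
      ({x | x ∈ Fam r S D κ c ∧ Real.exp (ht x) ≤ X}.ncard : ℝ) ≤ C * X ^ (expo k r S D κ + ε) := by
  obtain ⟨C, -, hC⟩ := Pool.Agent.Results.MP_71c16a_nt.PointsOfBoundedDegree.result r hr S D hD.1 hD.2
    κ hκ hκ1 c ε hε
  refine ⟨C, fun X hX => ?_⟩
  have hX0 : 0 < X := by linarith
  have hset : {x | x ∈ Fam r S D κ c ∧ Real.exp (ht x) ≤ X} = Near r S D κ c (Real.log X) := by
    ext x
    constructor
    · rintro ⟨⟨⟨h1, h2⟩, h3⟩, h4⟩
      exact ⟨h1, (Real.le_log_iff_exp_le hX0).2 h4, h2, h3⟩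
    · rintro ⟨h1, h4, h2, h3⟩
      exact ⟨⟨⟨h1, h2⟩, h3⟩, (Real.le_log_iff_exp_le hX0).1 h4⟩
  rw [hset]
  obtain ⟨g1, g2⟩ := hC (Real.log X) (Real.log_nonneg hX)
  refine ⟨g1, g2.trans (le_of_eq ?_)⟩
  rw [Real.rpow_def_of_pos hX0, mul_comm (Real.log X)]
  rfl

lemma rpow_exp (a σ : ℝ) : (Real.exp a) ^ (-σ) = Real.exp (-(σ * a)) := by
  rw [← Real.exp_mul]
  congr 1
  ring

theorem metric {M : Type*} [MetricSpace M] (φ : AlgebraicClosure k → M) (r : ℕ) (hr : 1 ≤ r)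
    (S : Finset (HeightOneSpectrum (𝓞 k))) (D : Finset (𝓞 k × 𝓞 k)) (hD : Distinct D)
    (κ : ℝ) (hκ : 0 ≤ κ) (hκ1 : κ ≤ r + 1) (σ : ℝ) (hσ : 0 < σ) :
    ∃ E : Set M, dimH E ≤ ENNReal.ofReal (expo k r S D κ / σ) ∧ ∀ z ∉ E, ∀ c : ℝ,
      {x | x ∈ Points r D ∧ dist (φ x) z ≤ Real.exp (-(σ * ht x)) ∧
        κ * ht x - c ≤ prox S D (AdjoinSimple.gen k x)}.Finite := by
  obtain ⟨E, h1, h2⟩ := Pool.Agent.H107.ME.dim_family φ (fun x : AlgebraicClosure k => Real.exp (ht x))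
    (fun x => Real.one_le_exp (ht_nonneg x)) (expo_nonneg r S D hκ hκ1) hσ (J := ℕ)
    (fun j => Fam r S D κ j) (fun j ε hε => count r hr S D hD κ hκ hκ1 j ε hε)
  refine ⟨E, h1, fun z hz c => ?_⟩
  obtain ⟨j, hj⟩ := exists_nat_ge c
  refine (h2 z hz j).subset ?_
  rintro x ⟨g1, g2, g3⟩
  refine ⟨⟨g1, by linarith⟩, ?_⟩
  rw [rpow_exp]
  exact g2

theorem ae (φ : AlgebraicClosure k → ℝ) (r : ℕ) (hr : 1 ≤ r) (S : Finset (HeightOneSpectrum (𝓞 k)))
    (D : Finset (𝓞 k × 𝓞 k)) (hD : Distinct D) (κ : ℝ) (hκ : 0 ≤ κ) (hκ1 : κ ≤ r + 1) :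
    ∀ᵐ z : ℝ, ∀ σ : ℝ, expo k r S D κ < σ → ∀ c : ℝ,
      {x | x ∈ Points r D ∧ |φ x - z| ≤ Real.exp (-(σ * ht x)) ∧
        κ * ht x - c ≤ prox S D (AdjoinSimple.gen k x)}.Finite := by
  have h := Pool.Agent.H107.ME.ae_family φ (fun x : AlgebraicClosure k => Real.exp (ht x))
    (fun x => Real.one_le_exp (ht_nonneg x)) (expo_nonneg r S D hκ hκ1) (J := ℕ)
    (fun j => Fam r S D κ j) (fun j ε hε => count r hr S D hD κ hκ hκ1 j ε hε)
  filter_upwards [h] with z hz σ hσ c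
  obtain ⟨j, hj⟩ := exists_nat_ge c
  refine (hz σ hσ j).subset ?_
  rintro x ⟨g1, g2, g3⟩
  refine ⟨⟨g1, by linarith⟩, ?_⟩
  rw [rpow_exp]
  exact g2

lemma expo_lt (r : ℕ) (hr : 1 ≤ r) (S : Finset (HeightOneSpectrum (𝓞 k))) (D : Finset (𝓞 k × 𝓞 k))
    (hD : D.Nonempty) {κ : ℝ} (hκ : 0 < κ) :
    expo k r S D κ < Module.finrank ℚ k * r * (r + 1) := by
  unfold expo
  have hd : (0 : ℝ) < Module.finrank ℚ k := by exact_mod_cast Module.finrank_pos
  have hr0 : (0 : ℝ) < r := by exact_mod_cast hr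
  have h1 : 0 < min D.card (r * (S.card + Fintype.card (InfinitePlace k))) := by
    apply lt_min (Finset.card_pos.2 hD)
    have : 0 < Fintype.card (InfinitePlace k) := Fintype.card_pos
    positivity
  have h2 : (0 : ℝ) < ((min D.card (r * (S.card + Fintype.card (InfinitePlace k))) : ℕ) : ℝ) := by
    exact_mod_cast h1
  have h3 : 0 < min 1 ((r + 1 : ℝ) /
    ((min D.card (r * (S.card + Fintype.card (InfinitePlace k))) : ℕ) : ℝ)) :=
    lt_min one_pos (by positivity)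
  have h4 := mul_pos hκ h3
  apply mul_lt_mul_of_pos_left _ (by positivity)
  linarith

/-- **Theorem.** Let `k` be a number field of degree `d`.
(1) Let `r ≥ 1`, `S` a finite set of primes of `k`, `D` a finite set of distinct points of the projective line over `k`,
`0 ≤ κ ≤ r + 1` and `σ > 0`. For every map `φ` of the algebraic closure of `k` to a metric space `M` there is a set `E`
of points of `M` of Hausdorff dimension at most `expo / σ` such that for each `z` outside `E` and each `c` there are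
only finitely many `x` of degree `r` over `k`, outside `D`, with `dist (φ x) z ≤ exp (- σ h(x))` and
`∑_{v ∈ S ∪ S_∞} λ_D(x, v) ≥ κ h(x) - c`.
(2) For every embedding `ι` of the algebraic closure of `k` in `ℂ` and almost every real `z`: for all `r ≥ 1`, all `S`,
all nonempty `D`, all `κ > 0` and `σ ≥ d r (r + 1)` there is `C` such that ALL `x` of degree `r` over `k`, outside `D`,
with `|ι x - z| ≤ exp (- σ h(x))` satisfy `∑_{v ∈ S ∪ S_∞} λ_D(x, v) ≤ κ h(x) + C`. -/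
theorem result : ∀ (k : Type) [Field k] [NumberField k],
    (∀ (M : Type) [MetricSpace M] (φ : AlgebraicClosure k → M) (r : ℕ), 1 ≤ r →
      ∀ (S : Finset (HeightOneSpectrum (𝓞 k))) (D : Finset (𝓞 k × 𝓞 k)), Distinct D →
      ∀ κ : ℝ, 0 ≤ κ → κ ≤ r + 1 → ∀ σ : ℝ, 0 < σ →
      ∃ E : Set M, dimH E ≤ ENNReal.ofReal (expo k r S D κ / σ) ∧ ∀ z ∉ E, ∀ c : ℝ,
        {x | x ∈ Points r D ∧ dist (φ x) z ≤ Real.exp (-(σ * ht x)) ∧
          κ * ht x - c ≤ prox S D (AdjoinSimple.gen k x)}.Finite) ∧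
    (∀ ι : AlgebraicClosure k →+* ℂ, ∀ᵐ z : ℝ, ∀ r : ℕ, 1 ≤ r →
      ∀ (S : Finset (HeightOneSpectrum (𝓞 k))) (D : Finset (𝓞 k × 𝓞 k)), Distinct D → D.Nonempty →
      ∀ κ : ℝ, 0 < κ → ∀ σ : ℝ, (Module.finrank ℚ k : ℝ) * r * (r + 1) ≤ σ →
      ∃ C : ℝ, ∀ x ∈ Points r D, ‖ι x - z‖ ≤ Real.exp (-(σ * ht x)) →
        prox S D (AdjoinSimple.gen k x) ≤ κ * ht x + C) := by
  intro k _ _
  refine ⟨fun M _ φ r hr S D hD κ hκ hκ1 σ hσ => metric φ r hr S D hD κ hκ hκ1 σ hσ, fun ι => ?_⟩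
  have := Pool.Agent.H107.NF.countable_hos k
  have := Pool.Agent.H107.NF.countable_nf k
  have : Countable (𝓞 k) := Subtype.countable
  have hall : ∀ (r : ℕ) (S : Finset (HeightOneSpectrum (𝓞 k))) (D : Finset (𝓞 k × 𝓞 k)) (j : ℕ),
      ∀ᵐ z : ℝ, 1 ≤ r → Distinct D → ∀ σ : ℝ, expo k r S D (1 / ((j : ℝ) + 1)) < σ → ∀ c : ℝ,
        {x | x ∈ Points r D ∧ |(ι x).re - z| ≤ Real.exp (-(σ * ht x)) ∧
          1 / ((j : ℝ) + 1) * ht x - c ≤ prox S D (AdjoinSimple.gen k x)}.Finite := by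
    intro r S D j
    by_cases hr : 1 ≤ r
    · by_cases hD : Distinct D
      · have hj : 1 / ((j : ℝ) + 1) ≤ r + 1 := by
          have h1 : 1 / ((j : ℝ) + 1) ≤ 1 := by
            rw [div_le_one (by positivity)]
            have : (0 : ℝ) ≤ j := Nat.cast_nonneg j
            linarith
          have h2 : (0 : ℝ) ≤ r := Nat.cast_nonneg r
          linarith
        filter_upwards [ae (fun x => (ι x).re) r hr S D hD (1 / ((j : ℝ) + 1)) (by positivity) hj]
          with z hz _ _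
        exact hz
      · exact Filter.Eventually.of_forall fun z _ h => absurd h hD
    · exact Filter.Eventually.of_forall fun z h => absurd h hr
  simp only [← MeasureTheory.ae_all_iff] at hall
  filter_upwards [hall] with z hz r hr S D hD hDn κ hκ σ hσ
  obtain ⟨j, hj⟩ := exists_nat_one_div_lt hκ
  have hjpos : (0 : ℝ) < 1 / ((j : ℝ) + 1) := by positivity
  have hfin := hz r S D j hr hD σ ((expo_lt r hr S D hDn hjpos).trans_le hσ) 0
  obtain ⟨C, hC⟩ := Pool.Agent.H107.ME.const_of_finite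
    {x | x ∈ Points r D ∧ ‖ι x - z‖ ≤ Real.exp (-(σ * ht x))}
    (fun x => prox S D (AdjoinSimple.gen k x) - 1 / ((j : ℝ) + 1) * ht x) (hfin.subset (by
      rintro x ⟨⟨h1, h2⟩, h4⟩
      refine ⟨h1, ?_, ?_⟩
      · have h5 : |(ι x - (z : ℂ)).re| ≤ ‖ι x - z‖ := Complex.abs_re_le_norm _
        rw [Complex.sub_re, Complex.ofReal_re] at h5
        exact h5.trans h2
      · have h5 : 0 < prox S D (AdjoinSimple.gen k x) - 1 / ((j : ℝ) + 1) * ht x := h4
        linarith))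
  refine ⟨C, fun x h1 h2 => ?_⟩
  have h6 : prox S D (AdjoinSimple.gen k x) - 1 / ((j : ℝ) + 1) * ht x ≤ C := hC x ⟨h1, h2⟩
  have h7 : 1 / ((j : ℝ) + 1) * ht x ≤ κ * ht x := mul_le_mul_of_nonneg_right hj.le (ht_nonneg x)
  linarith

end Pool.Agent.Results.MP_71c16a_nt.NearAlmostEveryPoint
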